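import Pool.Agent.K3h63.IQ.Stm2

/-!
# The sign conjecture for `M` from that for `(M ⊗ M^∨)^G`

Brick CPL2 for `Pool.Agent.K3h63.IQ.Stm2`.
-/

set_option autoImplicit false
set_option linter.unusedSectionVars false

open CategoryTheory Limits MonoidalCategory
open Pool.Agent.Y112.SR Pool.Agent.Y112.KD Pool.Agent.Y112.SC Pool.Agent.R905
open Pool.Agent.K3h63.IQ

namespace Pool.Agent.K3h20.IQ

universe v u w

section

variable {C : Type u} [Category.{v} C] [Preadditive C] [Linear ℚ C]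
  [MonoidalCategory C] [SymmetricCategory C] {K : Type w} [Field K] (R : SuperRealisation C K)

/-- the realisation of endomorphisms as a ring homomorphism -/
noncomputable def th (M : C) : End M →+* Module.End K (R.H.obj M) where
  toFun f := (R.H.map (f : M ⟶ M)).hom
  map_one' := by
    have h : R.H.map (𝟙 M) = 𝟙 _ := R.H.map_id M
    exact (congrArg ModuleCat.Hom.hom h).trans rfl
  map_mul' f g := by
    have h : R.H.map ((g : M ⟶ M) ≫ (f : M ⟶ M)) = _ := R.H.map_comp _ _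
    exact (congrArg ModuleCat.Hom.hom h).trans rfl
  map_zero' := by
    have h : R.H.map (0 : M ⟶ M) = 0 := R.H.map_zero M M
    exact (congrArg ModuleCat.Hom.hom h).trans rfl
  map_add' f g := by
    have h : R.H.map ((f : M ⟶ M) + (g : M ⟶ M)) = _ := R.H.map_add
    exact (congrArg ModuleCat.Hom.hom h).trans rfl

theorem th_aeval (M : C) (x : End M) (q : Polynomial ℚ) [CharZero K] :
    th R M (Polynomial.aeval x q) = Polynomial.aeval (th R M x) (q.map (algebraMap ℚ K)) := by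
  rw [Polynomial.aeval_def, Polynomial.aeval_def, Polynomial.eval₂_map, Polynomial.hom_eval₂]
  congr 1
  exact Subsingleton.elim _ _

end

theorem t_CPL2 (h1 : S_EIG.{w}) (h2 : S_SGN.{w}) (h3 : S_DUALX.{v, u, w}) :
    S_CPL2.{v, u, w} := by
  intro C _ _ _ _ _ _ _ _ K _ R G _ _ M P ρ j q hinv hP
  have := R_charZero R
  have h20 : (2 : K) ≠ 0 := two_ne_zero
  rw [cplus_iff] at hP ⊢
  obtain ⟨g, hg⟩ := hP
  obtain ⟨hD, -, -⟩ := h3 C K R M
  have hcG : (Fintype.card G : ℚ) ≠ 0 := by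
    exact_mod_cast Fintype.card_ne_zero
  -- the operator
  have e1 : R.H.map (q ≫ g ≫ j) = R.par (M ⊗ Mᘁ) ≫ R.H.map (q ≫ j) := by
    rw [Functor.map_comp, Functor.map_comp, hg, ← Category.assoc, R.par_natural, Category.assoc,
      ← Functor.map_comp]
  have e2 : R.H.map (q ≫ j) = (((Fintype.card G : ℚ)⁻¹ : ℚ) : K) • ∑ g : G,
      bx R (R.H.map ((ρ g : End M) : M ⟶ M))
        (R.H.map ((dualAct ρ g : End (Mᘁ : C)) : (Mᘁ : C) ⟶ Mᘁ)) := by
    rw [hinv.proj, R_smul, Functor.map_sum]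
    simp only [bx_map]
  have ePT : ∀ F : G → (R.H.obj (M ⊗ Mᘁ) ⟶ R.H.obj (M ⊗ Mᘁ)),
      PT R (∑ g, F g) = ∑ g, PT R (F g) := fun F =>
    map_sum (AddMonoidHom.mk' (PT R) (PT_add R)) _ _
  have e3 : PT R (R.H.map (q ≫ g ≫ j)) = (((Fintype.card G : ℚ)⁻¹ : ℚ) : K) • ∑ g : G,
      LinearMap.trace K _ (R.H.map ((ρ g⁻¹ : End M) : M ⟶ M)).hom •
        (R.par M ≫ R.H.map ((ρ g : End M) : M ⟶ M)) := by
    rw [e1, e2, Linear.comp_smul, PT_smul, Preadditive.comp_sum, ePT]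
    congr 1
    refine Finset.sum_congr rfl fun g _ => ?_
    rw [← bx_par, bx_comp, PT_bx R h20]
    congr 1
    have e : ((R.par (Mᘁ) ≫ R.H.map ((dualAct ρ g : End (Mᘁ : C)) : (Mᘁ : C) ⟶ Mᘁ)) ≫
        R.par (Mᘁ)) = R.H.map ((dualAct ρ g : End (Mᘁ : C)) : (Mᘁ : C) ⟶ Mᘁ) := by
      rw [Category.assoc, R.par_natural, ← Category.assoc, R.par_sq, Category.id_comp]
    rw [e]
    exact hD _
  have e4 : R.H.map ((Fintype.card G : ℚ) • ptr (q ≫ g ≫ j)) = ∑ g : G,
      LinearMap.trace K _ (R.H.map ((ρ g⁻¹ : End M) : M ⟶ M)).hom •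
        (R.par M ≫ R.H.map ((ρ g : End M) : M ⟶ M)) := by
    rw [R_smul, ← PT_map, e3, smul_smul, ← Rat.cast_mul, mul_inv_cancel₀ hcG, Rat.cast_one,
      one_smul]
  let π : G →* Module.End K (R.H.obj M) := ((th R M : End M →* _)).comp ρ
  let p : Module.End K (R.H.obj M) := (R.par M).hom
  let c : Module.End K (R.H.obj M) := ∑ g : G, LinearMap.trace K (R.H.obj M) (π g⁻¹) • π g
  have hpp : p * p = 1 := (congrArg ModuleCat.Hom.hom (R.par_sq M)).trans rfl
  have hπp : ∀ g, π g * p = p * π g := fun g =>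
    ((congrArg ModuleCat.Hom.hom (R.par_natural ((ρ g : End M) : M ⟶ M))).symm).trans rfl
  have hcp : c * p = p * c := by
    rw [Finset.sum_mul, Finset.mul_sum]
    refine Finset.sum_congr rfl fun g _ => ?_
    rw [smul_mul_assoc, mul_smul_comm, hπp g]
  obtain ⟨s, hs, hs'⟩ := h1 K (R.H.obj M) G π
  obtain ⟨q₀, hq⟩ := h2 K (R.H.obj M) c p s hpp hcp hs hs'
  let x : End M := ((Fintype.card G : ℚ) • ptr (q ≫ g ≫ j) : M ⟶ M)
  have hx : th R M x = c * p := by
    rw [Finset.sum_mul]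
    have h := congrArg ModuleCat.Hom.hom e4
    rw [ModuleCat.hom_sum] at h
    refine h.trans ?_
    refine Finset.sum_congr rfl fun g _ => ?_
    rw [smul_mul_assoc]
    rfl
  refine ⟨(Polynomial.aeval x q₀ : End M), ?_⟩
  apply ModuleCat.hom_ext
  have h5 : th R M (Polynomial.aeval x q₀) = p := by
    rw [th_aeval, hx, hq]
  exact h5

end Pool.Agent.K3h20.IQ
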